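import Pool.Agent.H88.Qm1

open Pool.Agent.H88.Qm in
theorem Pool.Agent.Results.MP_8a0948_an.No.result :
    (Ineq ↔ ¬ ∃ (ε : ℝ) (ν : BoundedContinuousFunction ℕ ℝ →L[ℝ] ℝ), 0 < ε ∧ QM ε ν) ∧
      (Cardinal.continuum.{0} = Cardinal.aleph 1 → ¬ Ineq) := by
  refine ⟨⟨fun H ⟨ε, ν, h1, h2⟩ => not_ineq h1 h2 H, fun H ε ν h1 h2 => absurd ⟨ε, ν, h1, h2⟩ H⟩,
    fun h => ?_⟩
  obtain ⟨ν, hν⟩ := of_ch h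
  exact not_ineq one_pos hν
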